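import Pool.Agent.FQGrp.Jordan
import Mathlib.GroupTheory.Perm.Cycle.Type
import Mathlib.GroupTheory.Index

/-! A transitive permutation group of prime degree and families of commuting representations of a
second group. -/

set_option autoImplicit false

namespace Pool.Agent.FQGrp

open MulAction

/-- A transitive permutation group of prime degree contains a cycle without fixed points. -/
theorem exists_full_cycle {Γ S : Type*} [Group Γ] [Finite S] (hp : (Nat.card S).Prime)
    (α : Γ →* Equiv.Perm S) (ht : ∀ x y : S, ∃ g : Γ, α g x = y) :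
    ∃ g : Γ, (∀ x y : S, ∃ i : ℤ, (α g ^ i) x = y) ∧ (∀ x, α g x ≠ x) ∧
      orderOf (α g) = Nat.card S := by
  classical
  cases nonempty_fintype S
  have hne : Nonempty S := by
    by_contra h
    rw [not_nonempty_iff] at h
    rw [Nat.card_of_isEmpty] at hp
    exact Nat.not_prime_zero hp
  obtain ⟨x0⟩ := hne
  have h1 : Nat.card S ∣ Nat.card α.range := by
    have h2 := card_orbit_mul_card_stabilizer_eq_card_group α.range x0
    have h3 : Nat.card S = Fintype.card (orbit α.range x0) := by
      rw [Nat.card_eq_fintype_card]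
      refine Fintype.card_congr (Equiv.symm ?_)
      have h4 : orbit α.range x0 = Set.univ := by
        rw [Set.eq_univ_iff_forall]
        intro y
        obtain ⟨g, hg⟩ := ht x0 y
        exact ⟨⟨α g, g, rfl⟩, hg⟩
      rw [h4]
      exact Equiv.Set.univ S
    rw [h3, Nat.card_eq_fintype_card, ← h2]
    exact dvd_mul_right _ _
  have : Fact (Nat.card S).Prime := ⟨hp⟩
  obtain ⟨σ, hσ⟩ := exists_prime_orderOf_dvd_card' (Nat.card S) h1
  obtain ⟨g, hg⟩ := σ.2
  have h5 : orderOf (α g) = Nat.card S := by
    rw [hg, Subgroup.orderOf_coe, hσ]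
  have h6 : (α g).IsCycle :=
    Equiv.Perm.isCycle_of_prime_order'' (by rw [← Nat.card_eq_fintype_card]; exact hp)
      (by rw [← Nat.card_eq_fintype_card]; exact h5)
  have h7 : (α g).support = Finset.univ := by
    rw [← Finset.card_eq_iff_eq_univ, ← h6.orderOf, h5, Nat.card_eq_fintype_card]
  have h8 : ∀ x, α g x ≠ x := by
    intro x
    rw [← Equiv.Perm.mem_support, h7]
    exact Finset.mem_univ x
  refine ⟨g, fun x y => ?_, h8, h5⟩
  exact h6.exists_zpow_eq (h8 x) (h8 y)

/-- **Prime degree.** Let `α` be transitive on a set with a prime number `p` of points. Suppose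
that for every `g` there is a representation `b` of the group `C` on the same set that commutes
with `α g`, and such that `α g` agrees at some point with some `b c`. Then `C` has a normal subgroup
of index `p`. -/
theorem index_prime {Γ C S : Type*} [Group Γ] [Group C] [Finite S] (hp : (Nat.card S).Prime)
    (α : Γ →* Equiv.Perm S) (ht : ∀ x y : S, ∃ g : Γ, α g x = y)
    (hb : ∀ g : Γ, ∃ b : C →* Equiv.Perm S, (∀ c x, b c (α g x) = α g (b c x)) ∧
      ∃ s c, α g s = b c s) :
    ∃ N : Subgroup C, N.Normal ∧ N.index = Nat.card S := by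
  obtain ⟨g, h1, h2, h3⟩ := exists_full_cycle hp α ht
  obtain ⟨b, h4, s, c, h5⟩ := hb g
  refine ⟨b.ker, inferInstance, ?_⟩
  rw [Subgroup.index_ker]
  have h6 : ∀ c, b c ∈ Subgroup.zpowers (α g) := by
    intro c
    obtain ⟨i, hi⟩ := h1 s (b c s)
    refine ⟨i, ?_⟩
    change α g ^ i = b c
    have h7 : ∀ (h : Multiplicative ℤ) (x : S),
        ((α g ^ i)⁻¹ * b c) ((zpowersHom _ (α g)) h x) =
          (zpowersHom _ (α g)) h (((α g ^ i)⁻¹ * b c) x) := by
      intro h x
      have h8 : Commute (b c) (α g) := by
        ext y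
        exact h4 c y
      have h9 : Commute ((α g ^ i)⁻¹ * b c) ((α g) ^ (Multiplicative.toAdd h)) := by
        refine Commute.zpow_right (Commute.mul_left ?_ h8) _
        exact ((Commute.refl (α g)).zpow_left i).inv_left
      have h10 := congrArg (fun σ : Equiv.Perm S => σ x) h9.eq
      exact h10
    have h8 := eq_one_of_fixed (α := zpowersHom _ (α g)) (b := (α g ^ i)⁻¹ * b c) (x := s)
      (fun x y => by
        obtain ⟨j, hj⟩ := h1 x y
        exact ⟨Multiplicative.ofAdd j, hj⟩) h7 (by
        change (α g ^ i)⁻¹ (b c s) = s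
        rw [← hi]
        exact (α g ^ i).symm_apply_apply s)
    rw [inv_mul_eq_one] at h8
    exact h8
  have h7 : b.range ≤ Subgroup.zpowers (α g) := by
    rintro _ ⟨c, rfl⟩
    exact h6 c
  have h8 : Nat.card (Subgroup.zpowers (α g)) = Nat.card S := by
    rw [Nat.card_zpowers, h3]
  have h9 : Nat.card b.range ∣ Nat.card S := by
    rw [← h8]
    exact Subgroup.card_dvd_of_le h7
  rcases (Nat.dvd_prime hp).1 h9 with h10 | h10
  · exfalso
    have h11 : b.range = ⊥ := Subgroup.card_eq_one.1 h10
    have h12 : b c = 1 := by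
      have : b c ∈ b.range := ⟨c, rfl⟩
      rw [h11, Subgroup.mem_bot] at this
      exact this
    rw [h12] at h5
    exact h2 s h5
  · exact h10

end Pool.Agent.FQGrp
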