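import Pool.Agent.FQGrp.Jordan

/-!
# Jordan's theorem for fibrations (PACKAGE FT7)

Proof. Let `π x = π y = b`. Let `S = MulAction.stabilizer Γ b` act on the fibre
`X_b = {z // π z = b}` (`γ • z` is in the fibre: `π (γ • z) = γ • π z = γ • b = b`); this gives a
homomorphism `S →* Equiv.Perm X_b` (`MulAction.toPermHom`). It is transitive: `htr`, and
an element mapping a point of the fibre to a point of the fibre stabilises `b`. Every `γ ∈ S` has a
fixed point in `X_b`: with `s` from `hsec γ`, `s b` is in the fibre and `γ • s b = s (γ • b) = s b`. So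
`X_b` has at most one point by `jordan_hom`, and `x = y`. -/

set_option autoImplicit false

namespace Pool.Agent.FQGrp

theorem jordan_fib {Γ X B : Type*} [Group Γ] [MulAction Γ X] [MulAction Γ B] [Finite X]
    (π : X → B) (hπ : ∀ (γ : Γ) (x : X), π (γ • x) = γ • π x)
    (htr : ∀ x y : X, ∃ γ : Γ, γ • x = y)
    (hsec : ∀ γ : Γ, ∃ s : B → X, (∀ b, π (s b) = b) ∧ ∀ b, γ • s b = s (γ • b)) :
    Function.Injective π := by
  intro x y hxy
  have hmem : ∀ (γ : Γ) (z : X), π z = π x → γ • π x = π x → π (γ • z) = π x := by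
    intro γ z hz hγ
    rw [hπ, hz, hγ]
  let S : Subgroup Γ := MulAction.stabilizer Γ (π x)
  let act : MulAction S {z : X // π z = π x} :=
    { smul := fun γ z => ⟨(γ : Γ) • z.1, hmem γ z.1 z.2 γ.2⟩
      one_smul := fun z => Subtype.ext (one_smul Γ z.1)
      mul_smul := fun γ γ' z => Subtype.ext (mul_smul (γ : Γ) (γ' : Γ) z.1) }
  have hs : Subsingleton {z : X // π z = π x} := by
    refine jordan_hom (MulAction.toPermHom S {z : X // π z = π x}) ?_ ?_
    · rintro ⟨z, hz⟩ ⟨w, hw⟩
      obtain ⟨γ, hγ⟩ := htr z w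
      have h1 : γ • π x = π x := by
        have h2 := hπ γ z
        rw [hγ, hw, hz] at h2
        exact h2.symm
      exact ⟨⟨γ, h1⟩, Subtype.ext hγ⟩
    · rintro ⟨γ, hγ⟩
      have hγ' : γ • π x = π x := hγ
      obtain ⟨σ, h1, h2⟩ := hsec γ
      refine ⟨⟨σ (π x), h1 _⟩, Subtype.ext ?_⟩
      change γ • σ (π x) = σ (π x)
      rw [h2, hγ']
  exact congrArg Subtype.val (Subsingleton.elim (⟨x, rfl⟩ : {z : X // π z = π x}) ⟨y, hxy.symm⟩)

end Pool.Agent.FQGrp
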