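import Pool.Agent.FQ.Group

/-!
# Subgroups which are transitive on the base of a fibration (PACKAGE FU2)

Proof of `fib_transitive`. Let `x, y ∈ X`. By `hA` there is `a ∈ A` with `a • π x = π y`; replace
`x` by `a • x`, so that `π x = π y = b`. Let `S` be the stabiliser of `b` in `Γ`; it acts on the
fibre `X_b = {z // π z = b}` (see the proof of `jordan_fib` in `Pool/Agent/FQGrp/Fib.lean`),
transitively by `htr`. `A` is transitive on the orbit of `b`: every `γ ∈ Γ` is in `A * S` (`hA`
applied to `x` and `γ • x` gives `a ∈ A` with `a • b = γ • b`, so `a⁻¹ γ ∈ S`). So the map `S ⧸ (A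
∩ S) → Γ ⧸ A` is bijective (use right/left cosets with care, e.g. consider inverses: `S A = Γ` too)
and the index of `A.subgroupOf S` in `S` is `A.index`. Now `FQ.isPretransitive_of_coprime` for `G =
S`, `X = X_b` and the subgroup `A.subgroupOf S` gives `a ∈ A ∩ S` with `a • x = y`. (Mathlib:
`Subgroup.relIndex`, `A.relIndex S = (A.subgroupOf S).index`; an alternative to the bijection of
the cosets: the index of `A ⊓ S` in `Γ` computed in two ways, `Subgroup.relIndex_mul_index`, and
the orbit of `b` under `A` and under `Γ`: they are equal, so `(A ⊓ S).relIndex A = S.index`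
(`MulAction.index_stabilizer`), hence `(A ⊓ S).index = S.index * A.index` and `(A ⊓ S).relIndex S =
A.index`; here `S.index ≠ 0` because the orbit of `b` is in the image of the finite set `X`.) -/

set_option autoImplicit false

namespace Pool.Agent.FQGrp

theorem fib_transitive {Γ X B : Type*} [Group Γ] [MulAction Γ X] [MulAction Γ B] [Finite X]
    (π : X → B) (hπ : ∀ (γ : Γ) (x : X), π (γ • x) = γ • π x)
    (htr : ∀ x y : X, ∃ γ : Γ, γ • x = y) (A : Subgroup Γ) (h0 : A.index ≠ 0)
    (hA : ∀ x y : X, ∃ a ∈ A, a • π x = π y)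
    (hcop : ∀ x : X, A.index.Coprime (Nat.card {y : X // π y = π x})) :
    ∀ x y : X, ∃ a ∈ A, a • x = y := by
  intro x0 y
  obtain ⟨a0, ha0, ha0'⟩ := hA x0 y
  suffices h : ∃ a ∈ A, a • (a0 • x0) = y by
    obtain ⟨a, ha, h⟩ := h
    exact ⟨a * a0, A.mul_mem ha ha0, by rw [mul_smul, h]⟩
  have hxy : π (a0 • x0) = π y := by rw [hπ, ha0']
  generalize a0 • x0 = x at hxy ⊢
  have hmem : ∀ (γ : Γ) (z : X), π z = π x → γ • π x = π x → π (γ • z) = π x := by
    intro γ z hz hγ
    rw [hπ, hz, hγ]
  let S : Subgroup Γ := MulAction.stabilizer Γ (π x)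
  have horb : MulAction.orbit A (π x) = MulAction.orbit Γ (π x) := by
    apply Set.Subset.antisymm
    · rintro _ ⟨a, rfl⟩
      exact ⟨(a : Γ), rfl⟩
    · rintro _ ⟨γ, rfl⟩
      obtain ⟨a, ha, h⟩ := hA x (γ • x)
      refine ⟨⟨a, ha⟩, ?_⟩
      change a • π x = γ • π x
      rw [h, hπ]
  have hfin : (MulAction.orbit Γ (π x)).Finite := by
    refine (Set.finite_range π).subset ?_
    rintro _ ⟨γ, rfl⟩
    exact ⟨γ • x, hπ γ x⟩
  have hS : S.index ≠ 0 := by
    have h1 : S.index = (MulAction.orbit Γ (π x)).ncard := MulAction.index_stabilizer Γ (π x)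
    rw [h1]
    have h2 : 0 < (MulAction.orbit Γ (π x)).ncard :=
      (Set.ncard_pos hfin).2 ⟨_, MulAction.mem_orbit_self (π x)⟩
    exact h2.ne'
  have h3 : S.relIndex A = S.index := by
    have e1 : (MulAction.stabilizer A (π x)).index = S.relIndex A := by
      rw [Subgroup.relIndex]
      congr 1
    have e2 : (MulAction.stabilizer A (π x)).index = (MulAction.orbit A (π x)).ncard :=
      MulAction.index_stabilizer A (π x)
    have e3 : S.index = (MulAction.orbit Γ (π x)).ncard := MulAction.index_stabilizer Γ (π x)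
    rw [← e1, e2, horb, e3]
  have h4 : A.relIndex S = A.index := by
    have g1 := Subgroup.relIndex_mul_index (inf_le_left : A ⊓ S ≤ A)
    have g2 := Subgroup.relIndex_mul_index (inf_le_right : A ⊓ S ≤ S)
    rw [Subgroup.inf_relIndex_left, h3] at g1
    rw [Subgroup.inf_relIndex_right, ← g1, mul_comm S.index] at g2
    exact Nat.eq_of_mul_eq_mul_right (Nat.pos_of_ne_zero hS) g2
  let act : MulAction S {z : X // π z = π x} :=
    { smul := fun γ z => ⟨(γ : Γ) • z.1, hmem γ z.1 z.2 γ.2⟩
      one_smul := fun z => Subtype.ext (one_smul Γ z.1)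
      mul_smul := fun γ γ' z => Subtype.ext (mul_smul (γ : Γ) (γ' : Γ) z.1) }
  have hpre : MulAction.IsPretransitive S {z : X // π z = π x} := by
    refine ⟨?_⟩
    rintro ⟨z, hz⟩ ⟨w, hw⟩
    obtain ⟨γ, hγ⟩ := htr z w
    have h1 : γ • π x = π x := by
      have h2 := hπ γ z
      rw [hγ, hw, hz] at h2
      exact h2.symm
    exact ⟨⟨γ, h1⟩, Subtype.ext hγ⟩
  have h5 : (A.subgroupOf S).index = A.index := h4
  have h6 : MulAction.IsPretransitive (A.subgroupOf S) {z : X // π z = π x} := by
    refine FQ.isPretransitive_of_coprime (A.subgroupOf S) ?_ ?_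
    · rw [h5]
      exact h0
    · rw [h5]
      exact hcop x
  obtain ⟨g, hg⟩ := h6.exists_smul_eq ⟨x, rfl⟩ ⟨y, hxy.symm⟩
  exact ⟨((g : S) : Γ), g.2, congrArg Subtype.val hg⟩

end Pool.Agent.FQGrp
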