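import Mathlib.GroupTheory.GroupAction.Quotient
import Mathlib.GroupTheory.GroupAction.Basic
import Mathlib.Data.Fintype.Perm
import Mathlib.Tactic

/-! Jordan's theorem on derangements, and its use for two commuting permutation representations. -/

set_option autoImplicit false

namespace Pool.Agent.FQGrp

open MulAction

/-- **Jordan's theorem** (by the orbit counting lemma): a finite transitive permutation group in
which every element has a fixed point acts on at most one point. -/
theorem jordan {G X : Type*} [Group G] [Finite G] [MulAction G X] [Finite X]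
    (ht : ∀ x y : X, ∃ g : G, g • x = y) (h : ∀ g : G, ∃ x : X, g • x = x) :
    Subsingleton X := by
  classical
  cases nonempty_fintype G
  cases nonempty_fintype X
  rcases isEmpty_or_nonempty X with hX | hX
  · infer_instance
  have h1 := sum_card_fixedBy_eq_card_orbits_mul_card_group G X
  have h2 : Fintype.card (Quotient (orbitRel G X)) = 1 := by
    rw [Fintype.card_eq_one_iff]
    obtain ⟨x⟩ := hX
    refine ⟨Quotient.mk'' x, fun q => ?_⟩
    induction q using Quotient.inductionOn' with
    | h y =>
      obtain ⟨g, hg⟩ := ht x y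
      exact Quotient.sound' ⟨g, hg⟩
  rw [h2, one_mul] at h1
  have h3 : ∀ g : G, 1 ≤ Fintype.card (fixedBy X g) := by
    intro g
    obtain ⟨x, hx⟩ := h g
    have : Nonempty (fixedBy X g) := ⟨x, hx⟩
    exact Fintype.card_pos
  have h4 : Fintype.card (fixedBy X (1 : G)) = 1 := by
    by_contra h5
    have h6 : ∑ g : G, 1 < ∑ g : G, Fintype.card (fixedBy X g) := by
      refine Finset.sum_lt_sum (fun g _ => h3 g) ⟨1, Finset.mem_univ _, ?_⟩
      exact lt_of_le_of_ne (h3 1) (Ne.symm h5)
    rw [h1, Finset.sum_const, Finset.card_univ, smul_eq_mul, mul_one] at h6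
    exact lt_irrefl _ h6
  rw [Fintype.card_eq_one_iff] at h4
  obtain ⟨z, hz⟩ := h4
  refine ⟨fun x y => ?_⟩
  have hx := hz ⟨x, one_smul G x⟩
  have hy := hz ⟨y, one_smul G y⟩
  exact congrArg Subtype.val (hx.trans hy.symm)

/-- Jordan's theorem for a homomorphism to the permutations of a finite set. -/
theorem jordan_hom {Γ X : Type*} [Group Γ] [Finite X] (γ : Γ →* Equiv.Perm X)
    (ht : ∀ x y : X, ∃ g : Γ, γ g x = y) (h : ∀ g : Γ, ∃ x : X, γ g x = x) :
    Subsingleton X := by
  have : Finite γ.range := inferInstance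
  refine jordan (G := γ.range) ?_ ?_
  · intro x y
    obtain ⟨g, hg⟩ := ht x y
    exact ⟨⟨γ g, g, rfl⟩, hg⟩
  · rintro ⟨_, g, rfl⟩
    exact h g

section

variable {Γ S : Type*} [Group Γ] {α β : Γ →* Equiv.Perm S}

/-- A permutation that commutes with a transitive group and fixes a point is the identity. -/
theorem eq_one_of_fixed (ht : ∀ x y : S, ∃ g : Γ, α g x = y) {b : Equiv.Perm S}
    (hb : ∀ g : Γ, ∀ x, b (α g x) = α g (b x)) {x : S} (hx : b x = x) : b = 1 := by
  ext y
  obtain ⟨g, rfl⟩ := ht x y
  rw [hb, hx]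
  rfl

/-- The relation of being in the same orbit of `β`. -/
private def orb (β : Γ →* Equiv.Perm S) : Setoid S where
  r x y := ∃ g : Γ, β g x = y
  iseqv := by
    refine ⟨fun x => ⟨1, by rw [map_one]; rfl⟩, ?_, ?_⟩
    · rintro x y ⟨g, rfl⟩
      exact ⟨g⁻¹, by rw [map_inv]; exact (β g).symm_apply_apply x⟩
    · rintro x y z ⟨g, rfl⟩ ⟨h, rfl⟩
      exact ⟨h * g, by rw [map_mul]; rfl⟩

private def act (hc : ∀ g h : Γ, ∀ x, β h (α g x) = α g (β h x)) (g : Γ) :
    Quotient (orb β) → Quotient (orb β) :=
  Quotient.map (α g) fun x y ⟨h, e⟩ => ⟨h, by rw [hc, e]⟩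

private def actHom (hc : ∀ g h : Γ, ∀ x, β h (α g x) = α g (β h x)) :
    Γ →* Equiv.Perm (Quotient (orb β)) where
  toFun g :=
    { toFun := act hc g
      invFun := act hc g⁻¹
      left_inv := by
        intro q
        induction q using Quotient.inductionOn with
        | h x =>
          refine congrArg (Quotient.mk _) ?_
          rw [map_inv]
          exact (α g).symm_apply_apply x
      right_inv := by
        intro q
        induction q using Quotient.inductionOn with
        | h x =>
          refine congrArg (Quotient.mk _) ?_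
          rw [map_inv]
          exact (α g).apply_symm_apply x }
  map_one' := by
    ext q
    induction q using Quotient.inductionOn with
    | h x =>
      refine congrArg (Quotient.mk _) ?_
      rw [map_one]
      rfl
  map_mul' g h := by
    ext q
    induction q using Quotient.inductionOn with
    | h x =>
      refine congrArg (Quotient.mk _) ?_
      rw [map_mul]
      rfl

/-- **Two commuting permutation representations.** If `α` is transitive, `β` commutes with `α`, and
for every `g` the permutations `α g` and `β g` agree at some point, then `β` is transitive too. -/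
theorem beta_transitive [Finite S] (ht : ∀ x y : S, ∃ g : Γ, α g x = y)
    (hc : ∀ g h : Γ, ∀ x, β h (α g x) = α g (β h x)) (he : ∀ g : Γ, ∃ x, α g x = β g x)
    (x y : S) : ∃ g : Γ, β g x = y := by
  have h1 : Subsingleton (Quotient (orb β)) := by
    refine jordan_hom (actHom hc) ?_ ?_
    · intro p q
      induction p using Quotient.inductionOn with
      | h x =>
        induction q using Quotient.inductionOn with
        | h y =>
          obtain ⟨g, hg⟩ := ht x y
          exact ⟨g, congrArg (Quotient.mk _) hg⟩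
    · intro g
      obtain ⟨x, hx⟩ := he g
      refine ⟨Quotient.mk _ x, Quotient.sound ?_⟩
      refine (orb β).symm ?_
      exact ⟨g, hx.symm⟩
  exact Quotient.exact (Subsingleton.elim (Quotient.mk (orb β) x) (Quotient.mk (orb β) y))

/-- `β` acts freely. -/
theorem beta_free (ht : ∀ x y : S, ∃ g : Γ, α g x = y)
    (hc : ∀ g h : Γ, ∀ x, β h (α g x) = α g (β h x)) {g : Γ} {x : S} (hx : β g x = x) :
    β g = 1 :=
  eq_one_of_fixed ht (fun h y => hc h g y) hx

/-- `α` acts freely. -/
theorem alpha_free [Finite S] (ht : ∀ x y : S, ∃ g : Γ, α g x = y)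
    (hc : ∀ g h : Γ, ∀ x, β h (α g x) = α g (β h x)) (he : ∀ g : Γ, ∃ x, α g x = β g x)
    {g : Γ} {x : S} (hx : α g x = x) : α g = 1 :=
  eq_one_of_fixed (α := β) (beta_transitive ht hc he) (fun h y => (hc g h y).symm) hx

/-- The two representations have the same kernel. -/
theorem ker_eq [Finite S] (ht : ∀ x y : S, ∃ g : Γ, α g x = y)
    (hc : ∀ g h : Γ, ∀ x, β h (α g x) = α g (β h x)) (he : ∀ g : Γ, ∃ x, α g x = β g x)
    (g : Γ) : α g = 1 ↔ β g = 1 := by
  obtain ⟨x, hx⟩ := he g
  constructor
  · intro h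
    refine beta_free ht hc (x := x) ?_
    rw [← hx, h]
    rfl
  · intro h
    refine alpha_free ht hc he (x := x) ?_
    rw [hx, h]
    rfl

/-- Without `β`: at most one point. -/
theorem subsingleton_of_fixed [Finite S] (ht : ∀ x y : S, ∃ g : Γ, α g x = y)
    (he : ∀ g : Γ, ∃ x, α g x = x) : Subsingleton S :=
  jordan_hom α ht he

/-- If `β` is trivial, there is at most one point. -/
theorem subsingleton_of_trivial [Finite S] (ht : ∀ x y : S, ∃ g : Γ, α g x = y)
    (he : ∀ g : Γ, ∃ x, α g x = β g x)
    (hb : ∀ g, β g = 1) : Subsingleton S := by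
  refine subsingleton_of_fixed ht fun g => ?_
  obtain ⟨x, hx⟩ := he g
  exact ⟨x, by rw [hx, hb]; rfl⟩

private theorem card_range {ρ : Γ →* Equiv.Perm S} (ht : ∀ x y : S, ∃ g : Γ, ρ g x = y)
    (hf : ∀ g x, ρ g x = x → ρ g = 1) (x : S) : Nat.card ρ.range = Nat.card S := by
  refine Nat.card_congr (Equiv.ofBijective (fun b : ρ.range => b.1 x) ⟨?_, ?_⟩)
  · rintro ⟨_, g, rfl⟩ ⟨_, h, rfl⟩ e
    have e1 : ρ (h⁻¹ * g) x = x := by
      rw [map_mul, map_inv]
      change (ρ h)⁻¹ (ρ g x) = x
      simp only at e
      rw [e]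
      exact (ρ h).symm_apply_apply x
    have e2 := hf _ _ e1
    rw [map_mul, map_inv, inv_mul_eq_one] at e2
    exact Subtype.ext e2.symm
  · intro y
    obtain ⟨g, hg⟩ := ht x y
    exact ⟨⟨ρ g, g, rfl⟩, hg⟩

/-- The number of points is the order of the image of `β` (and of `α`). -/
theorem card_beta [Finite S] [Nonempty S] (ht : ∀ x y : S, ∃ g : Γ, α g x = y)
    (hc : ∀ g h : Γ, ∀ x, β h (α g x) = α g (β h x)) (he : ∀ g : Γ, ∃ x, α g x = β g x) :
    Nat.card β.range = Nat.card S :=
  card_range (beta_transitive ht hc he) (fun _ _ h => beta_free ht hc h)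
    (Classical.arbitrary S)

theorem card_alpha [Finite S] [Nonempty S] (ht : ∀ x y : S, ∃ g : Γ, α g x = y)
    (hc : ∀ g h : Γ, ∀ x, β h (α g x) = α g (β h x)) (he : ∀ g : Γ, ∃ x, α g x = β g x) :
    Nat.card α.range = Nat.card S :=
  card_range ht (fun _ _ h => alpha_free ht hc he h) (Classical.arbitrary S)

/-- If the number of points is odd, involutions act trivially. -/
theorem eq_one_of_sq [Finite S] [Nonempty S] (ht : ∀ x y : S, ∃ g : Γ, α g x = y)
    (hc : ∀ g h : Γ, ∀ x, β h (α g x) = α g (β h x)) (he : ∀ g : Γ, ∃ x, α g x = β g x)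
    (ho : Odd (Nat.card S)) {g : Γ} (hg : α (g * g) = 1) : α g = 1 := by
  have h1 : (⟨α g, g, rfl⟩ : α.range) ^ Nat.card α.range = 1 := pow_card_eq_one'
  rw [card_alpha ht hc he] at h1
  have h2 : (α g) ^ Nat.card S = 1 := congrArg Subtype.val h1
  obtain ⟨k, hk⟩ := ho
  rw [hk, pow_succ, pow_mul, pow_two, ← map_mul, hg, one_pow, one_mul] at h2
  exact h2

end

end Pool.Agent.FQGrp
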